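import Pool.Agent.H982.CL10

/-!
Self-avoiding polygons and walks on `ℤ^d`, `d ≥ 2`: the inequality `α ≤ γ` between the exponents of
the numbers of polygons and of walks, and the finite inequality from which it follows.
-/

set_option autoImplicit false

namespace Pool.Agent.Results.MP_c0584e_pr.AlphaLeGamma

open Filter Topology

/-- `ω` is an `n`-step self-avoiding walk on `ℤ^d` started at the origin. -/
def IsSAW (d n : ℕ) (ω : Fin (n + 1) → Fin d → ℤ) : Prop :=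
  ω 0 = 0 ∧ (∀ i : Fin n, ∑ j, |ω i.succ j - ω i.castSucc j| = 1) ∧ Function.Injective ω

/-- `ω` is a (rooted, oriented) self-avoiding polygon of length `n`: `ω(0) = ω(n) = 0`, unit steps,
and `ω(i) ≠ ω(j)` for `0 ≤ i < j ≤ n - 1`. -/
def IsSAP (d n : ℕ) (ω : Fin (n + 1) → Fin d → ℤ) : Prop :=
  ω 0 = 0 ∧ ω (Fin.last n) = 0 ∧ (∀ i : Fin n, ∑ j, |ω i.succ j - ω i.castSucc j| = 1) ∧
    ∀ i j : Fin (n + 1), i < j → (j : ℕ) ≤ n - 1 → ω i ≠ ω j

/-- `C_n`: the number of `n`-step self-avoiding walks from the origin -/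
noncomputable def C (d n : ℕ) : ℕ := Nat.card {ω : Fin (n + 1) → Fin d → ℤ // IsSAW d n ω}

/-- `A_n`: the number of self-avoiding polygons of length `n`, rooted and oriented -/
noncomputable def A (d n : ℕ) : ℕ := Nat.card {ω : Fin (n + 1) → Fin d → ℤ // IsSAP d n ω}

theorem C_eq (d n : ℕ) : C d n = Q294.Close.c (H982.CL.Ed d) n := by
  rw [H982.CL.c_Ed, ← Nat.card_coe_set_eq]
  rfl

theorem A_eq (d N : ℕ) (hN : 1 ≤ N) : A d (N + 1) = Q294.Close.κ (H982.CL.Ed d) N := by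
  rw [← H982.CL.A_eq d N hN, ← Nat.card_coe_set_eq]
  rfl

/-- **Theorem.** Let `d ≥ 2`.  The limit `μ` of `C_n^(1/n)` exists, `μ ≥ 1`, and:
(1) there is `K` such that for all `n ≥ 2` and `H ≥ 0` with `C_N ≤ μ^N e^H` for all `N ≤ 4 n` there
is an even `m` with `n < m ≤ 2 n + 1` and `A_m ≤ K ((H + log n) log n / n) C_(m-1)`;
(2) if the exponents `γ` and `α` exist, `μ^(-n) C_n = n^(γ - 1 + o(1))` and
`μ^(-n) A_n = n^(α - 2 + o(1))` along the even `n`, then `α ≤ γ`. -/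
theorem result (d : ℕ) (hd : 2 ≤ d) : ∃ μ : ℝ, 1 ≤ μ ∧
    Tendsto (fun n : ℕ => (C d n : ℝ) ^ (1 / (n : ℝ))) atTop (𝓝 μ) ∧
    (∃ K : ℝ, ∀ n : ℕ, 2 ≤ n → ∀ H : ℝ, 0 ≤ H →
      (∀ N : ℕ, N ≤ 4 * n → (C d N : ℝ) ≤ μ ^ N * Real.exp H) →
      ∃ m : ℕ, n < m ∧ m ≤ 2 * n + 1 ∧ Even m ∧
        (A d m : ℝ) ≤ K * ((H + Real.log n) * Real.log n / n) * C d (m - 1)) ∧
    ∀ α γ : ℝ,
      Tendsto (fun n : ℕ => Real.log ((C d n : ℝ) / μ ^ n) / Real.log n) atTop (𝓝 (γ - 1)) →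
      Tendsto (fun j : ℕ => Real.log ((A d (2 * j) : ℝ) / μ ^ (2 * j)) /
        Real.log ((2 * j : ℕ) : ℝ)) atTop (𝓝 (α - 2)) → α ≤ γ := by
  obtain ⟨μ, hμ⟩ := H982.CL.mu_exists (show 1 ≤ d by omega)
  obtain ⟨hμ1, hlow⟩ := H982.CL.mu_low (by omega) hμ
  refine ⟨μ, hμ1, ?_, ?_, ?_⟩
  · simpa only [C_eq] using hμ
  · obtain ⟨K, -, h⟩ := H982.CL.nested' (E := H982.CL.Ed d) H982.CL.Ed_neg hμ1 hlow
    refine ⟨K, fun n hn H hH hup => ?_⟩
    simp only [C_eq] at hup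
    obtain ⟨N, h1, h2, h3, h4⟩ := h n hn H hH hup
    refine ⟨N + 1, by omega, by omega, h3.add_one, ?_⟩
    rw [A_eq d N (by omega), Nat.add_sub_cancel, C_eq]
    exact h4
  · intro α γ hγ hα
    simp only [C_eq] at hγ
    refine H982.CL.alpha_le_gamma hd hμ hγ ?_
    have h1 := hα.comp (tendsto_add_atTop_nat 1)
    refine h1.congr (fun j => ?_)
    simp only [Function.comp]
    have e : 2 * (j + 1) = 2 * j + 1 + 1 := by ring
    have e2 : 2 * (j + 1) = 2 * j + 2 := by ring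
    rw [e, A_eq d (2 * j + 1) (by omega)]

end Pool.Agent.Results.MP_c0584e_pr.AlphaLeGamma
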